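import Pool.Agent.PH43.Small

set_option autoImplicit false

/-!
# PH43/Flip: the flip inequality for a sparse set `T` of swap positions

For `p ∈ T` the swap of the letters `p, p + 1` is an up flip (down flip) of `g` if the two letters are
incomparable and the number of descents goes up (down) by one. If the positions in `T` have distance
at least `3`, flips at different positions do not see each other, and
`∑_{g ∈ L_j} U g / (D g + 1) ≤ w_(j+1)`.
-/

namespace Pool.PH43

open Pool.HB45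

/-- the neighbour pairs `p - 1, p, p + 1` -/
def nb3 {N : ℕ} (p : Fin N) : Finset (Fin N) :=
  Finset.univ.filter fun q => q.val ≤ p.val + 1 ∧ p.val ≤ q.val + 1

theorem mem_nb3 {N : ℕ} {p q : Fin N} : q ∈ nb3 p ↔ q.val ≤ p.val + 1 ∧ p.val ≤ q.val + 1 := by
  simp [nb3]

/-- up flips in `T` -/
noncomputable def FU {N : ℕ} (Q : Rel (N + 1)) (lab : Fin (N + 1) → ℕ) (T : Finset (Fin N))
    (g : Equiv.Perm (Fin (N + 1))) : Finset (Fin N) := by
  classical
  exact T.filter fun p => ¬ Q (g p.castSucc) (g p.succ) ∧ des lab (sw g p) = des lab g + 1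

/-- down flips in `T` -/
noncomputable def FD {N : ℕ} (Q : Rel (N + 1)) (lab : Fin (N + 1) → ℕ) (T : Finset (Fin N))
    (g : Equiv.Perm (Fin (N + 1))) : Finset (Fin N) := by
  classical
  exact T.filter fun p => ¬ Q (g p.castSucc) (g p.succ) ∧ des lab (sw g p) + 1 = des lab g

theorem mem_FU {N : ℕ} {Q : Rel (N + 1)} {lab : Fin (N + 1) → ℕ} {T : Finset (Fin N)}
    {g : Equiv.Perm (Fin (N + 1))} {p : Fin N} : p ∈ FU Q lab T g ↔
      p ∈ T ∧ ¬ Q (g p.castSucc) (g p.succ) ∧ des lab (sw g p) = des lab g + 1 := by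
  classical
  simp [FU]

theorem mem_FD {N : ℕ} {Q : Rel (N + 1)} {lab : Fin (N + 1) → ℕ} {T : Finset (Fin N)}
    {g : Equiv.Perm (Fin (N + 1))} {p : Fin N} : p ∈ FD Q lab T g ↔
      p ∈ T ∧ ¬ Q (g p.castSucc) (g p.succ) ∧ des lab (sw g p) + 1 = des lab g := by
  classical
  simp [FD]

/-- outside `nb3 p` the descents do not change -/
theorem DS_out {N : ℕ} (lab : Fin (N + 1) → ℕ) (g : Equiv.Perm (Fin (N + 1))) (p : Fin N) :
    (DS lab (sw g p)).filter (fun q => q ∉ nb3 p) = (DS lab g).filter (fun q => q ∉ nb3 p) := by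
  ext q
  rw [Finset.mem_filter, Finset.mem_filter, mem_DS, mem_DS]
  by_cases hq : q ∈ nb3 p
  · simp [hq]
  · have h0 := hq
    rw [mem_nb3] at h0
    have hc : q.castSucc.val = q.val := rfl
    have hs : q.succ.val = q.val + 1 := rfl
    rw [sw_other g (i := q.castSucc) (by rw [hc]; omega) (by rw [hc]; omega),
      sw_other g (i := q.succ) (by rw [hs]; omega) (by rw [hs]; omega)]

/-- near a far away position the descents do not change -/
theorem DS_far {N : ℕ} (lab : Fin (N + 1) → ℕ) (g : Equiv.Perm (Fin (N + 1))) {p p' : Fin N}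
    (h : p.val + 3 ≤ p'.val ∨ p'.val + 3 ≤ p.val) :
    (DS lab (sw g p)).filter (fun q => q ∈ nb3 p') = (DS lab g).filter (fun q => q ∈ nb3 p') := by
  ext q
  rw [Finset.mem_filter, Finset.mem_filter, mem_DS, mem_DS]
  by_cases hq : q ∈ nb3 p'
  · have h0 := hq
    rw [mem_nb3] at h0
    have hc : q.castSucc.val = q.val := rfl
    have hs : q.succ.val = q.val + 1 := rfl
    rw [sw_other g (i := q.castSucc) (by rw [hc]; omega) (by rw [hc]; omega),
      sw_other g (i := q.succ) (by rw [hs]; omega) (by rw [hs]; omega)]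
  · simp [hq]

theorem des_sw {N : ℕ} (lab : Fin (N + 1) → ℕ) (g : Equiv.Perm (Fin (N + 1))) (p : Fin N) :
    des lab (sw g p) + ((DS lab g).filter fun q => q ∈ nb3 p).card =
      des lab g + ((DS lab (sw g p)).filter fun q => q ∈ nb3 p).card := by
  have h1 := Finset.card_filter_add_card_filter_not (s := DS lab (sw g p)) (fun q => q ∈ nb3 p)
  have h2 := Finset.card_filter_add_card_filter_not (s := DS lab g) (fun q => q ∈ nb3 p)
  rw [DS_out lab g p] at h1
  rw [card_DS] at h1 h2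
  omega

theorem sw_comm {N : ℕ} (g : Equiv.Perm (Fin (N + 1))) {p p' : Fin N}
    (h : p.val + 3 ≤ p'.val ∨ p'.val + 3 ≤ p.val) : sw (sw g p) p' = sw (sw g p') p := by
  unfold sw
  rw [mul_assoc, mul_assoc]
  congr 1
  have hc : p.castSucc.val = p.val := rfl
  have hs : p.succ.val = p.val + 1 := rfl
  have hc' : p'.castSucc.val = p'.val := rfl
  have hs' : p'.succ.val = p'.val + 1 := rfl
  refine (Equiv.Perm.disjoint_swap_swap ?_).commute
  simp only [List.nodup_cons, List.mem_cons, List.not_mem_nil, Fin.ext_iff, hc, hs, hc', hs',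
    or_false, List.nodup_nil, not_false_eq_true, and_true]
  omega

/-- flips at distance at least `3` are independent -/
theorem des_sw_sw {N : ℕ} (lab : Fin (N + 1) → ℕ) (g : Equiv.Perm (Fin (N + 1))) {p p' : Fin N}
    (h : p.val + 3 ≤ p'.val ∨ p'.val + 3 ≤ p.val) :
    des lab (sw (sw g p) p') + des lab g = des lab (sw g p') + des lab (sw g p) := by
  have h1 := des_sw lab g p'
  have h2 := des_sw lab (sw g p) p'
  rw [DS_far lab g h] at h2
  rw [sw_comm g h] at h2
  rw [DS_far lab (sw g p') h] at h2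
  rw [sw_comm g h]
  omega

/-- the comparability at a far away position does not change -/
theorem Q_far {N : ℕ} (Q : Rel (N + 1)) (g : Equiv.Perm (Fin (N + 1))) {p p' : Fin N}
    (h : p.val + 3 ≤ p'.val ∨ p'.val + 3 ≤ p.val) :
    Q (sw g p p'.castSucc) (sw g p p'.succ) ↔ Q (g p'.castSucc) (g p'.succ) := by
  have hc : p'.castSucc.val = p'.val := rfl
  have hs : p'.succ.val = p'.val + 1 := rfl
  rw [sw_other g (i := p'.castSucc) (by rw [hc]; omega) (by rw [hc]; omega),
    sw_other g (i := p'.succ) (by rw [hs]; omega) (by rw [hs]; omega)]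

/-- pairwise distance at least `3` -/
def Sparse {N : ℕ} (T : Finset (Fin N)) : Prop :=
  ∀ p ∈ T, ∀ p' ∈ T, p.val < p'.val → p.val + 3 ≤ p'.val

theorem Sparse.far {N : ℕ} {T : Finset (Fin N)} (hT : Sparse T) {p p' : Fin N} (hp : p ∈ T)
    (hp' : p' ∈ T) (h : p' ≠ p) : p.val + 3 ≤ p'.val ∨ p'.val + 3 ≤ p.val := by
  rcases Nat.lt_or_gt_of_ne (fun h' : p.val = p'.val => h (Fin.ext h'.symm)) with h1 | h1
  · exact Or.inl (hT p hp p' hp' h1)
  · exact Or.inr (hT p' hp' p hp h1)

/-- an up flip at `p` adds `p` to the down flips -/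
theorem FD_sw {N : ℕ} {Q : Rel (N + 1)} {lab : Fin (N + 1) → ℕ} {T : Finset (Fin N)}
    (hT : Sparse T) {g : Equiv.Perm (Fin (N + 1))} (hg : g ∈ LE Q) {p : Fin N}
    (hp : p ∈ FU Q lab T g) :
    p ∈ FD Q lab T (sw g p) ∧ (FD Q lab T (sw g p)).card = (FD Q lab T g).card + 1 := by
  classical
  obtain ⟨h1, h2, h3⟩ := mem_FU.1 hp
  have h4 : p ∈ FD Q lab T (sw g p) := by
    rw [mem_FD]
    refine ⟨h1, ?_, ?_⟩
    · rw [sw_left, sw_right]
      intro h
      have h5 := mem_LE.1 hg _ _ h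
      have h6 : p.succ.val < p.castSucc.val := h5
      have hc : p.castSucc.val = p.val := rfl
      have hs : p.succ.val = p.val + 1 := rfl
      omega
    · rw [sw_sw, h3]
  refine ⟨h4, ?_⟩
  have h5 : FD Q lab T (sw g p) = insert p (FD Q lab T g) := by
    ext q
    by_cases hq : q = p
    · subst hq
      simp [h4]
    · rw [Finset.mem_insert, mem_FD, mem_FD]
      by_cases hqT : q ∈ T
      · have hf := hT.far h1 hqT hq
        have h6 := des_sw_sw lab g hf
        rw [Q_far Q g hf]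
        constructor
        · rintro ⟨-, h7, h8⟩
          exact Or.inr ⟨hqT, h7, by omega⟩
        · rintro (h7 | ⟨-, h7, h8⟩)
          · exact absurd h7 hq
          · exact ⟨hqT, h7, by omega⟩
      · simp [hq, hqT]
  have h6 : p ∉ FD Q lab T g := by
    rw [mem_FD]
    rintro ⟨-, -, h7⟩
    omega
  rw [h5, Finset.card_insert_of_notMem h6]

/-- words with `j` descents -/
noncomputable def Lj {N : ℕ} (Q : Rel (N + 1)) (lab : Fin (N + 1) → ℕ) (j : ℕ) :
    Finset (Equiv.Perm (Fin (N + 1))) := by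
  classical
  exact (LE Q).filter fun g => des lab g = j

theorem mem_Lj {N : ℕ} {Q : Rel (N + 1)} {lab : Fin (N + 1) → ℕ} {j : ℕ}
    {g : Equiv.Perm (Fin (N + 1))} : g ∈ Lj Q lab j ↔ g ∈ LE Q ∧ des lab g = j := by
  classical
  simp [Lj]

theorem card_Lj {N : ℕ} (Q : Rel (N + 1)) (lab : Fin (N + 1) → ℕ) (j : ℕ) :
    (Lj Q lab j).card = w Q lab j := by
  classical
  unfold w Lj
  congr

/-- the flip as a map of pairs (word, position) -/
def flipMap {N : ℕ} (x : Σ _ : Equiv.Perm (Fin (N + 1)), Fin N) :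
    Σ _ : Equiv.Perm (Fin (N + 1)), Fin N := ⟨sw x.1 x.2, x.2⟩

/-- THE FLIP INEQUALITY. -/
theorem flip {N : ℕ} (Q : Rel (N + 1)) (lab : Fin (N + 1) → ℕ) {T : Finset (Fin N)}
    (hT : Sparse T) (j : ℕ) :
    ∑ g ∈ Lj Q lab j, ((FU Q lab T g).card : ℝ) / ((FD Q lab T g).card + 1) ≤
      w Q lab (j + 1) := by
  classical
  have h1 : ∑ g ∈ Lj Q lab j, ((FU Q lab T g).card : ℝ) / ((FD Q lab T g).card + 1) =
      ∑ x ∈ (Lj Q lab j).sigma fun g => FU Q lab T g, (1 : ℝ) / (FD Q lab T (sw x.1 x.2)).card := by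
    rw [Finset.sum_sigma]
    refine Finset.sum_congr rfl fun g hg => ?_
    rw [Finset.sum_congr rfl (g := fun _ => (1 : ℝ) / ((FD Q lab T g).card + 1)) (fun p hp => by
      rw [(FD_sw hT (mem_Lj.1 hg).1 hp).2]
      push_cast
      rfl), Finset.sum_const, nsmul_eq_mul]
    ring
  have hinj : Set.InjOn (flipMap (N := N))
      ((Lj Q lab j).sigma fun g => FU Q lab T g : Finset _) := by
    rintro ⟨g, p⟩ - ⟨g', p'⟩ - hx
    simp only [flipMap, Sigma.mk.injEq, heq_eq_eq] at hx
    obtain ⟨hx1, rfl⟩ := hx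
    have := congrArg (fun g => sw g p) hx1
    simp only [sw_sw] at this
    rw [this]
  have h2 : ∑ x ∈ (Lj Q lab j).sigma fun g => FU Q lab T g,
      (1 : ℝ) / (FD Q lab T (sw x.1 x.2)).card =
      ∑ y ∈ ((Lj Q lab j).sigma fun g => FU Q lab T g).image flipMap,
        (1 : ℝ) / (FD Q lab T y.1).card := by
    rw [Finset.sum_image hinj]
    rfl
  have h3 : ((Lj Q lab j).sigma fun g => FU Q lab T g).image flipMap ⊆
      (Lj Q lab (j + 1)).sigma fun g => FD Q lab T g := by
    intro y hy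
    obtain ⟨⟨g, p⟩, hx, rfl⟩ := Finset.mem_image.1 hy
    obtain ⟨hg, hp⟩ := Finset.mem_sigma.1 hx
    obtain ⟨hg1, hg2⟩ := mem_Lj.1 hg
    obtain ⟨-, hp2, hp3⟩ := mem_FU.1 hp
    rw [Finset.mem_sigma]
    refine ⟨mem_Lj.2 ⟨sw_mem hg1 hp2, ?_⟩, (FD_sw hT hg1 hp).1⟩
    show des lab (sw g p) = j + 1
    rw [hp3, hg2]
  have h4 : ∑ y ∈ (Lj Q lab (j + 1)).sigma fun g => FD Q lab T g,
      (1 : ℝ) / (FD Q lab T y.1).card ≤ w Q lab (j + 1) := by
    rw [Finset.sum_sigma, ← card_Lj, ← nsmul_one, ← Finset.sum_const]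
    refine Finset.sum_le_sum fun g _ => ?_
    show ∑ _s ∈ FD Q lab T g, (1 : ℝ) / (FD Q lab T g).card ≤ 1
    rw [Finset.sum_const, nsmul_eq_mul]
    rcases Nat.eq_zero_or_pos (FD Q lab T g).card with h | h
    · rw [h]
      simp
    · have : ((FD Q lab T g).card : ℝ) ≠ 0 := by
        have : (0 : ℝ) < (FD Q lab T g).card := by exact_mod_cast h
        exact this.ne'
      rw [mul_one_div_cancel this]
  rw [h1, h2]
  exact (Finset.sum_le_sum_of_subset_of_nonneg h3 fun _ _ _ => by positivity).trans h4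

/-- up flips minus down flips on most words -/
theorem flip_le {N : ℕ} (Q : Rel (N + 1)) (lab : Fin (N + 1) → ℕ) {T : Finset (Fin N)}
    (hT : Sparse T) (j : ℕ) :
    (1 + 1 / ((N : ℝ) + 1)) * (((Lj Q lab j).filter fun g =>
      (FD Q lab T g).card + 2 ≤ (FU Q lab T g).card).card : ℝ) ≤ w Q lab (j + 1) := by
  classical
  refine le_trans ?_ (flip Q lab hT j)
  rw [mul_comm, ← nsmul_eq_mul, ← Finset.sum_const]
  refine (Finset.sum_le_sum (f := fun _ => 1 + 1 / ((N : ℝ) + 1)) (g := fun g =>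
    ((FU Q lab T g).card : ℝ) / ((FD Q lab T g).card + 1)) fun g hg => ?_).trans
    (Finset.sum_le_sum_of_subset_of_nonneg (Finset.filter_subset _ _) fun _ _ _ => by positivity)
  have h1 := (Finset.mem_filter.1 hg).2
  have h2 : (FD Q lab T g).card ≤ N := by
    have := Finset.card_le_univ (FD Q lab T g)
    simpa using this
  have h1' : ((FD Q lab T g).card : ℝ) + 2 ≤ (FU Q lab T g).card := by exact_mod_cast h1
  have h2' : ((FD Q lab T g).card : ℝ) ≤ N := by exact_mod_cast h2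
  have h3 : (1 : ℝ) / (N + 1) ≤ 1 / ((FD Q lab T g).card + 1) :=
    one_div_le_one_div_of_le (by positivity) (by linarith)
  have h4 : ((FD Q lab T g).card + 2 : ℝ) / ((FD Q lab T g).card + 1) =
      1 + 1 / ((FD Q lab T g).card + 1) := by
    field_simp
    ring
  calc 1 + 1 / ((N : ℝ) + 1) ≤ 1 + 1 / ((FD Q lab T g).card + 1) := by linarith
    _ = ((FD Q lab T g).card + 2 : ℝ) / ((FD Q lab T g).card + 1) := h4.symm
    _ ≤ _ := div_le_div_of_nonneg_right h1' (by positivity)

/-- If all but `B` of the `w_j` words have `U ≥ D + 2` and `(N + 2) B ≤ w_j` then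
`w_j ≤ w_(j+1)`. -/
theorem w_le_of_flip {N : ℕ} (Q : Rel (N + 1)) (lab : Fin (N + 1) → ℕ) {T : Finset (Fin N)}
    (hT : Sparse T) (j : ℕ) (hB : (N + 2) * ((Lj Q lab j).filter fun g =>
      (FU Q lab T g).card ≤ (FD Q lab T g).card + 1).card ≤ w Q lab j) :
    w Q lab j ≤ w Q lab (j + 1) := by
  classical
  have h1 := flip_le Q lab hT j
  have h2 := Finset.card_filter_add_card_filter_not (s := Lj Q lab j)
    (fun g => (FD Q lab T g).card + 2 ≤ (FU Q lab T g).card)
  have h3 : (Lj Q lab j).filter (fun g => ¬ (FD Q lab T g).card + 2 ≤ (FU Q lab T g).card) =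
      (Lj Q lab j).filter fun g => (FU Q lab T g).card ≤ (FD Q lab T g).card + 1 :=
    Finset.filter_congr fun g _ => by omega
  rw [h3, card_Lj] at h2
  set A := ((Lj Q lab j).filter fun g => (FD Q lab T g).card + 2 ≤ (FU Q lab T g).card).card
  set B := ((Lj Q lab j).filter fun g => (FU Q lab T g).card ≤ (FD Q lab T g).card + 1).card
  have h4 : (A : ℝ) + B = w Q lab j := by exact_mod_cast h2
  have h5 : ((N : ℝ) + 2) * B ≤ w Q lab j := by exact_mod_cast hB
  have h6 : (w Q lab j : ℝ) ≤ (1 + 1 / ((N : ℝ) + 1)) * A := by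
    have h7 : (1 + 1 / ((N : ℝ) + 1)) = (N + 2) / (N + 1) := by field_simp; ring
    rw [h7, div_mul_eq_mul_div, le_div_iff₀ (by positivity)]
    nlinarith
  exact_mod_cast h6.trans h1

end Pool.PH43
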