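import Pool.Agent.HB45.Defs

set_option autoImplicit false

/-!
# PH43/Small: `w_j ≤ w_(j+1)` for `h (4 j + 1) ≤ N`

For `g` with `j` descents at least `N / h` neighbour pairs are incomparable; at most `3 j` of them
are at or next to a descent, so at least `j + 1` incomparable ascents have no descent next to them.
Swapping one of them gives `j + 1` descents, and a word with `j + 1` descents is reached at most
`j + 1` times.
-/

namespace Pool.PH43

open Pool.HB45

/-- the descents -/
def DS {N : ℕ} (lab : Fin (N + 1) → ℕ) (g : Equiv.Perm (Fin (N + 1))) : Finset (Fin N) :=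
  Finset.univ.filter fun i : Fin N => lab (g i.succ) < lab (g i.castSucc)

theorem mem_DS {N : ℕ} {lab : Fin (N + 1) → ℕ} {g : Equiv.Perm (Fin (N + 1))} {i : Fin N} :
    i ∈ DS lab g ↔ lab (g i.succ) < lab (g i.castSucc) := by
  simp [DS]

theorem card_DS {N : ℕ} (lab : Fin (N + 1) → ℕ) (g : Equiv.Perm (Fin (N + 1))) :
    (DS lab g).card = des lab g := rfl

/-- incomparable ascents without a descent next to them -/
noncomputable def Up {N : ℕ} (Q : Rel (N + 1)) (lab : Fin (N + 1) → ℕ)
    (g : Equiv.Perm (Fin (N + 1))) : Finset (Fin N) := by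
  classical
  exact Finset.univ.filter fun p : Fin N => ¬ Q (g p.castSucc) (g p.succ) ∧
    ∀ q : Fin N, (q.val = p.val ∨ q.val + 1 = p.val ∨ q.val = p.val + 1) → q ∉ DS lab g

theorem mem_Up {N : ℕ} {Q : Rel (N + 1)} {lab : Fin (N + 1) → ℕ} {g : Equiv.Perm (Fin (N + 1))}
    {p : Fin N} : p ∈ Up Q lab g ↔ ¬ Q (g p.castSucc) (g p.succ) ∧
      ∀ q : Fin N, (q.val = p.val ∨ q.val + 1 = p.val ∨ q.val = p.val + 1) → q ∉ DS lab g := by
  classical
  simp [Up]

/-- the word after the swap at `p` -/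
def sw {N : ℕ} (g : Equiv.Perm (Fin (N + 1))) (p : Fin N) : Equiv.Perm (Fin (N + 1)) :=
  g * Equiv.swap p.castSucc p.succ

theorem sw_left {N : ℕ} (p : Fin N) (g : Equiv.Perm (Fin (N + 1))) :
    sw g p p.castSucc = g p.succ := by
  rw [sw, Equiv.Perm.mul_apply, Equiv.swap_apply_left]

theorem sw_right {N : ℕ} (p : Fin N) (g : Equiv.Perm (Fin (N + 1))) :
    sw g p p.succ = g p.castSucc := by
  rw [sw, Equiv.Perm.mul_apply, Equiv.swap_apply_right]

theorem sw_other {N : ℕ} {p : Fin N} {i : Fin (N + 1)} (g : Equiv.Perm (Fin (N + 1)))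
    (h1 : i.val ≠ p.val) (h2 : i.val ≠ p.val + 1) : sw g p i = g i := by
  rw [sw, Equiv.Perm.mul_apply, Equiv.swap_apply_of_ne_of_ne]
  · intro h; apply h1; rw [h]; simp
  · intro h; apply h2; rw [h]; simp

theorem sw_sw {N : ℕ} (p : Fin N) (g : Equiv.Perm (Fin (N + 1))) : sw (sw g p) p = g := by
  rw [sw, sw, mul_assoc, Equiv.swap_mul_self, mul_one]

theorem swap_lt {N : ℕ} (p : Fin N) {x y : Fin (N + 1)} (hxy : x < y)
    (hne : ¬ (x = p.castSucc ∧ y = p.succ)) :
    Equiv.swap p.castSucc p.succ x < Equiv.swap p.castSucc p.succ y := by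
  have hc : p.castSucc.val = p.val := rfl
  have hs : p.succ.val = p.val + 1 := rfl
  have hxy' : x.val < y.val := hxy
  have hne' : ¬ (x.val = p.val ∧ y.val = p.val + 1) := fun h => hne ⟨Fin.ext h.1, Fin.ext h.2⟩
  rw [Equiv.swap_apply_def, Equiv.swap_apply_def, Fin.lt_def]
  split_ifs with h1 h2 h3 h4 h5 h6 h7 <;>
    simp only [Fin.ext_iff, hc, hs] at * <;> omega

theorem sw_mem {N : ℕ} {Q : Rel (N + 1)} {p : Fin N} {g : Equiv.Perm (Fin (N + 1))}
    (hg : g ∈ LE Q) (hp : ¬ Q (g p.castSucc) (g p.succ)) : sw g p ∈ LE Q := by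
  rw [mem_LE] at hg ⊢
  intro i j hij
  rw [sw, Equiv.Perm.mul_apply, Equiv.Perm.mul_apply] at hij
  have h1 := hg _ _ hij
  have h2 := swap_lt p h1 (by
    rintro ⟨h3, h4⟩
    rw [h3, h4] at hij
    exact hp hij)
  rwa [Equiv.swap_apply_self, Equiv.swap_apply_self] at h2

/-- no descent at `q`: ascent -/
theorem lt_of_not_mem {N : ℕ} {Q : Rel (N + 1)} {lab : Fin (N + 1) → ℕ} (hn : Nat' Q lab)
    {g : Equiv.Perm (Fin (N + 1))} {q : Fin N} (hq : q ∉ DS lab g) :
    lab (g q.castSucc) < lab (g q.succ) := by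
  rw [mem_DS, not_lt] at hq
  refine lt_of_le_of_ne hq fun h => ?_
  have h1 := g.injective (hn.inj h)
  have h2 : q.castSucc.val = q.succ.val := by rw [h1]
  have hc : q.castSucc.val = q.val := rfl
  have hs : q.succ.val = q.val + 1 := rfl
  omega

/-- the swap at `p` creates exactly the descent `p` -/
theorem DS_sw {N : ℕ} {Q : Rel (N + 1)} {lab : Fin (N + 1) → ℕ} (hn : Nat' Q lab)
    {g : Equiv.Perm (Fin (N + 1))} {p : Fin N} (hp : p ∈ Up Q lab g) :
    DS lab (sw g p) = insert p (DS lab g) := by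
  classical
  obtain ⟨-, h1⟩ := mem_Up.1 hp
  have hpp : lab (g p.castSucc) < lab (g p.succ) := lt_of_not_mem hn (h1 p (Or.inl rfl))
  ext q
  rw [Finset.mem_insert, mem_DS, mem_DS]
  have hc : q.castSucc.val = q.val := rfl
  have hs : q.succ.val = q.val + 1 := rfl
  by_cases hq : q = p
  · subst hq
    rw [sw_left, sw_right]
    exact ⟨fun _ => Or.inl rfl, fun _ => hpp⟩
  · have hq' : q.val ≠ p.val := fun h => hq (Fin.ext h)
    by_cases hq1 : q.val + 1 = p.val
    · have h2 : q.succ = p.castSucc := Fin.ext (by rw [hs, hq1]; rfl)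
      have h3 := lt_of_not_mem hn (h1 q (Or.inr (Or.inl hq1)))
      rw [h2] at h3
      rw [h2, sw_left, sw_other g (i := q.castSucc) (by rw [hc]; omega) (by rw [hc]; omega)]
      constructor
      · intro h; exact absurd h (by omega)
      · rintro (h | h)
        · exact absurd h hq
        · exact absurd h (by omega)
    · by_cases hq2 : q.val = p.val + 1
      · have h2 : q.castSucc = p.succ := Fin.ext (by rw [hc, hq2]; rfl)
        have h3 := lt_of_not_mem hn (h1 q (Or.inr (Or.inr hq2)))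
        rw [h2] at h3
        rw [h2, sw_right, sw_other g (i := q.succ) (by rw [hs]; omega) (by rw [hs]; omega)]
        constructor
        · intro h; exact absurd h (by omega)
        · rintro (h | h)
          · exact absurd h hq
          · exact absurd h (by omega)
      · rw [sw_other g (i := q.castSucc) (by rw [hc]; omega) (by rw [hc]; omega),
          sw_other g (i := q.succ) (by rw [hs]; omega) (by rw [hs]; omega)]
        exact ⟨fun h => Or.inr h, fun h => h.resolve_left hq⟩

/-- every `h` neighbour pairs in a row contain an incomparable one -/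
theorem exists_incomp {N h : ℕ} {Q : Rel (N + 1)} {κ : Fin (N + 1) → ℕ} (hκ : Lev h Q κ)
    (g : Equiv.Perm (Fin (N + 1))) {o : ℕ} (ho : o + h ≤ N) :
    ∃ p : Fin N, o ≤ p.val ∧ p.val < o + h ∧ ¬ Q (g p.castSucc) (g p.succ) := by
  by_contra hcon
  push Not at hcon
  have key : ∀ i : ℕ, ∀ hi : i ≤ h, i ≤ κ (g ⟨o + i, by omega⟩) := by
    intro i
    induction i with
    | zero => intro _; exact Nat.zero_le _
    | succ i ih =>
      intro hi
      have h1 := ih (by omega)
      have h2 := hcon ⟨o + i, by omega⟩ (by simp) (by simp; omega)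
      have h3 := hκ.mono _ _ h2
      have h4 : (⟨o + i, by omega⟩ : Fin N).castSucc = (⟨o + i, by omega⟩ : Fin (N + 1)) := rfl
      have h5 : (⟨o + i, by omega⟩ : Fin N).succ = (⟨o + (i + 1), by omega⟩ : Fin (N + 1)) := rfl
      rw [h4, h5] at h3
      omega
  have h1 := key h le_rfl
  have h2 := hκ.lt (g ⟨o + h, by omega⟩)
  omega

/-- at least `N / h` incomparable neighbour pairs -/
theorem card_incomp {N h : ℕ} (hh : 1 ≤ h) {Q : Rel (N + 1)} {κ : Fin (N + 1) → ℕ}
    (hκ : Lev h Q κ) (g : Equiv.Perm (Fin (N + 1))) (s : Finset (Fin N))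
    (hs : ∀ p : Fin N, ¬ Q (g p.castSucc) (g p.succ) → p ∈ s) : N / h ≤ s.card := by
  have h1 : ∀ k : Fin (N / h), ∃ p : Fin N, p ∈ s ∧ p.val / h = k.val := by
    intro k
    have hk : (k.val + 1) * h ≤ N := by
      calc (k.val + 1) * h ≤ (N / h) * h := Nat.mul_le_mul_right _ k.isLt
        _ ≤ N := Nat.div_mul_le_self N h
    obtain ⟨p, hp1, hp2, hp3⟩ := exists_incomp hκ g (o := k.val * h) (by rw [Nat.add_mul] at hk; omega)
    refine ⟨p, hs p hp3, ?_⟩
    rw [Nat.div_eq_iff (by omega)]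
    constructor
    · exact hp1
    · omega
  choose f hf1 hf2 using h1
  have hinj : Function.Injective f := by
    intro a b hab
    apply Fin.ext
    rw [← hf2 a, ← hf2 b, hab]
  calc N / h = (Finset.univ : Finset (Fin (N / h))).card := by simp
    _ = (Finset.univ.image f).card := (Finset.card_image_of_injective _ hinj).symm
    _ ≤ s.card := by
      apply Finset.card_le_card
      intro p hp
      obtain ⟨k, -, rfl⟩ := Finset.mem_image.1 hp
      exact hf1 k

/-- many flips: `N / h ≤ #Up + 3 des` -/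
theorem le_card_Up {N h : ℕ} (hh : 1 ≤ h) {Q : Rel (N + 1)} {κ : Fin (N + 1) → ℕ}
    (lab : Fin (N + 1) → ℕ) (hκ : Lev h Q κ) (g : Equiv.Perm (Fin (N + 1))) :
    N / h ≤ (Up Q lab g).card + 3 * des lab g := by
  classical
  have hA : ((Finset.univ : Finset (Fin N)).filter fun p => ∃ q ∈ DS lab g, q.val = p.val).card ≤
      des lab g := by
    refine Finset.card_le_card_of_injOn id ?_ (fun a _ b _ h => h)
    intro p hp
    obtain ⟨-, q, hq, h⟩ := Finset.mem_filter.1 (Finset.mem_coe.1 hp)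
    have : q = p := Fin.ext h
    subst this
    exact hq
  have hB : ((Finset.univ : Finset (Fin N)).filter fun p => ∃ q ∈ DS lab g, q.val + 1 = p.val).card ≤
      des lab g := by
    rw [← card_DS]
    refine Finset.card_le_card_of_injOn (fun p => ⟨p.val - 1, by have := p.isLt; omega⟩) ?_ ?_
    · intro p hp
      obtain ⟨-, q, hq, h⟩ := Finset.mem_filter.1 (Finset.mem_coe.1 hp)
      have : (⟨p.val - 1, by have := p.isLt; omega⟩ : Fin N) = q := Fin.ext (by simp; omega)
      simp only [Finset.mem_coe]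
      rw [this]
      exact hq
    · intro a ha b hb hab
      obtain ⟨-, q, hq, h⟩ := Finset.mem_filter.1 (Finset.mem_coe.1 ha)
      obtain ⟨-, q', hq', h'⟩ := Finset.mem_filter.1 (Finset.mem_coe.1 hb)
      simp only [Fin.mk.injEq] at hab
      apply Fin.ext
      omega
  have hC : ((Finset.univ : Finset (Fin N)).filter fun p => ∃ q ∈ DS lab g, q.val = p.val + 1).card ≤
      des lab g := by
    rw [← card_DS]
    have hex : ∀ p ∈ ((Finset.univ : Finset (Fin N)).filter fun p => ∃ q ∈ DS lab g,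
        q.val = p.val + 1), ∃ q ∈ DS lab g, q.val = p.val + 1 := fun p hp =>
      (Finset.mem_filter.1 hp).2
    choose! f hf1 hf2 using hex
    refine Finset.card_le_card_of_injOn f (fun p hp => hf1 p hp) ?_
    intro a ha b hb hab
    have h1 := hf2 a (Finset.mem_coe.1 ha)
    have h2 := hf2 b (Finset.mem_coe.1 hb)
    rw [hab] at h1
    apply Fin.ext
    omega
  have hcov : N / h ≤ (Up Q lab g ∪ ((((Finset.univ : Finset (Fin N)).filter fun p =>
      ∃ q ∈ DS lab g, q.val = p.val) ∪ ((Finset.univ : Finset (Fin N)).filter fun p =>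
      ∃ q ∈ DS lab g, q.val + 1 = p.val)) ∪ ((Finset.univ : Finset (Fin N)).filter fun p =>
      ∃ q ∈ DS lab g, q.val = p.val + 1))).card := by
    refine card_incomp hh hκ g _ fun p hp => ?_
    by_cases hU : p ∈ Up Q lab g
    · exact Finset.mem_union_left _ hU
    · rw [mem_Up] at hU
      push Not at hU
      obtain ⟨q, hq1, hq2⟩ := hU hp
      simp only [Finset.mem_union, Finset.mem_filter, Finset.mem_univ, true_and]
      rcases hq1 with h | h | h
      · exact Or.inr (Or.inl (Or.inl ⟨q, hq2, h⟩))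
      · exact Or.inr (Or.inl (Or.inr ⟨q, hq2, h⟩))
      · exact Or.inr (Or.inr ⟨q, hq2, h⟩)
  have h1 := Finset.card_union_le (Up Q lab g) ((((Finset.univ : Finset (Fin N)).filter fun p =>
      ∃ q ∈ DS lab g, q.val = p.val) ∪ ((Finset.univ : Finset (Fin N)).filter fun p =>
      ∃ q ∈ DS lab g, q.val + 1 = p.val)) ∪ ((Finset.univ : Finset (Fin N)).filter fun p =>
      ∃ q ∈ DS lab g, q.val = p.val + 1))
  have h2 := Finset.card_union_le (((Finset.univ : Finset (Fin N)).filter fun p =>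
      ∃ q ∈ DS lab g, q.val = p.val) ∪ ((Finset.univ : Finset (Fin N)).filter fun p =>
      ∃ q ∈ DS lab g, q.val + 1 = p.val)) ((Finset.univ : Finset (Fin N)).filter fun p =>
      ∃ q ∈ DS lab g, q.val = p.val + 1)
  have h3 := Finset.card_union_le ((Finset.univ : Finset (Fin N)).filter fun p =>
      ∃ q ∈ DS lab g, q.val = p.val) ((Finset.univ : Finset (Fin N)).filter fun p =>
      ∃ q ∈ DS lab g, q.val + 1 = p.val)
  omega

theorem mem_w {N : ℕ} (Q : Rel (N + 1)) (lab : Fin (N + 1) → ℕ) (j : ℕ) :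
    ∃ s : Finset (Equiv.Perm (Fin (N + 1))), (∀ g, g ∈ s ↔ g ∈ LE Q ∧ des lab g = j) ∧
      w Q lab j = s.card := by
  classical
  refine ⟨(LE Q).filter fun g => des lab g = j, fun g => by simp, ?_⟩
  unfold w
  congr

/-- double counting of the flips: if every word with `j` descents has at least `j + 1` flips up
then `w_j ≤ w_(j+1)` -/
theorem w_le_of_Up {N j : ℕ} {Q : Rel (N + 1)} {lab : Fin (N + 1) → ℕ} (hn : Nat' Q lab)
    (hU : ∀ g ∈ LE Q, des lab g = j → j + 1 ≤ (Up Q lab g).card) :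
    w Q lab j ≤ w Q lab (j + 1) := by
  classical
  obtain ⟨s, hs, hws⟩ := mem_w Q lab j
  obtain ⟨t, ht, hwt⟩ := mem_w Q lab (j + 1)
  have h1 : s.card * (j + 1) ≤ (s.sigma fun g => Up Q lab g).card := by
    rw [Finset.card_sigma, ← smul_eq_mul]
    refine Finset.card_nsmul_le_sum _ _ _ fun g hg => ?_
    obtain ⟨hg1, hg2⟩ := (hs g).1 hg
    exact hU g hg1 hg2
  have h2 : (t.sigma fun g => DS lab g).card = t.card * (j + 1) := by
    rw [Finset.card_sigma, Finset.sum_congr rfl (fun g hg => by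
      rw [card_DS, ((ht g).1 hg).2]), Finset.sum_const, smul_eq_mul]
  have h3 : (s.sigma fun g => Up Q lab g).card ≤ (t.sigma fun g => DS lab g).card := by
    refine Finset.card_le_card_of_injOn (fun x => ⟨sw x.1 x.2, x.2⟩) ?_ ?_
    · rintro ⟨g, p⟩ hx
      rw [Finset.mem_coe, Finset.mem_sigma] at hx
      obtain ⟨hg, hp⟩ := hx
      obtain ⟨hg1, hg2⟩ := (hs g).1 hg
      have h4 := DS_sw hn hp
      have h5 : p ∉ DS lab g := (mem_Up.1 hp).2 p (Or.inl rfl)
      rw [Finset.mem_coe, Finset.mem_sigma]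
      refine ⟨(ht _).2 ⟨sw_mem hg1 (mem_Up.1 hp).1, ?_⟩, ?_⟩
      · show des lab (sw g p) = j + 1
        rw [← card_DS, h4, Finset.card_insert_of_notMem h5, card_DS, hg2]
      · show p ∈ DS lab (sw g p)
        rw [h4]
        exact Finset.mem_insert_self _ _
    · rintro ⟨g, p⟩ - ⟨g', p'⟩ - hx
      simp only [Sigma.mk.injEq, heq_eq_eq] at hx
      obtain ⟨hx1, rfl⟩ := hx
      have := congrArg (fun g => sw g p) hx1
      simp only [sw_sw] at this
      rw [this]
  rw [h2] at h3
  rw [hws, hwt]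
  exact Nat.le_of_mul_le_mul_right (h1.trans h3) (Nat.succ_pos j)

/-- SMALL `j`. -/
theorem small {N h j : ℕ} (hh : 1 ≤ h) {Q : Rel (N + 1)} {κ lab : Fin (N + 1) → ℕ}
    (hκ : Lev h Q κ) (hn : Nat' Q lab) (hj : h * (4 * j + 1) ≤ N) :
    w Q lab j ≤ w Q lab (j + 1) := by
  refine w_le_of_Up hn fun g _ hg => ?_
  have h1 := le_card_Up hh lab hκ g
  have h2 : 4 * j + 1 ≤ N / h := by
    rw [Nat.le_div_iff_mul_le (by omega), mul_comm]
    exact hj
  rw [hg] at h1
  omega

end Pool.PH43
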