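import Pool.Agent.SC25.Om

set_option autoImplicit false

/-!
# PH43/Small2: `w_j ≤ w_(j+1)` for `j ≤ n / (4 log (n + 2))` and `h ≤ n / (8 log (n + 2))`

`O m = (Mp Q (m + 1)).card` (maps to `{0, …, m}`) is log-concave (Ahlswede-Daykin), so
`O (2 M) O j ^ M ≤ O (j + 1) ^ M O M` for `j ≤ M`; the sandwich gives `4^n O M ≤ 3^n O (2 M)`, hence
`(n + 2) O j ≤ O (j + 1)` as soon as `(n + 2)^M 3^n ≤ 4^n`.  And `O (j + 1) ≤ w_(j+1) + (n + 1) O j`,
`w_j ≤ O j`.
-/

open scoped FinsetFamily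

namespace Pool.SC25

open Pool.HB45 Pool.HM63 Pool.PH43

/-- Ahlswede-Daykin: the order polynomial is log-concave -/
theorem mp_logc {n : ℕ} (Q : Rel n) (m : ℕ) :
    (Mp Q (m + 2)).card * (Mp Q m).card ≤ (Mp Q (m + 1)).card * (Mp Q (m + 1)).card := by
  classical
  let S : Finset (Fin n → Fin (m + 2)) := Mp Q (m + 2)
  let T : Finset (Fin n → Fin (m + 2)) := S.filter fun f => ∀ i, 1 ≤ (f i).val ∧ (f i).val ≤ m
  let A : Finset (Fin n → Fin (m + 2)) := S.filter fun f => ∀ i, (f i).val ≤ m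
  let B : Finset (Fin n → Fin (m + 2)) := S.filter fun f => ∀ i, 1 ≤ (f i).val
  have hAD := Finset.le_card_infs_mul_card_sups S T
  have h1 : (S ⊼ T) ⊆ A := by
    intro f hf
    obtain ⟨a, ha, b, hb, rfl⟩ := Finset.mem_infs.1 hf
    rw [Finset.mem_filter] at hb
    have ha' := mem_Mp.1 ha
    have hb' := mem_Mp.1 hb.1
    refine Finset.mem_filter.2 ⟨mem_Mp.2 fun x y hxy => ?_, fun i => ?_⟩
    · exact inf_le_inf (ha' x y hxy) (hb' x y hxy)
    · have h2 : ((a ⊓ b) i) ≤ b i := inf_le_right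
      exact le_trans (Fin.le_def.1 h2) (hb.2 i).2
  have h2 : (S ⊻ T) ⊆ B := by
    intro f hf
    obtain ⟨a, ha, b, hb, rfl⟩ := Finset.mem_sups.1 hf
    rw [Finset.mem_filter] at hb
    have ha' := mem_Mp.1 ha
    have hb' := mem_Mp.1 hb.1
    refine Finset.mem_filter.2 ⟨mem_Mp.2 fun x y hxy => ?_, fun i => ?_⟩
    · exact sup_le_sup (ha' x y hxy) (hb' x y hxy)
    · have h3 : b i ≤ ((a ⊔ b) i) := le_sup_right
      exact le_trans (hb.2 i).1 (Fin.le_def.1 h3)
  have h3 : A.card ≤ (Mp Q (m + 1)).card := by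
    refine Finset.card_le_card_of_injOn (fun f i => ⟨min (f i).val m, by omega⟩) ?_ ?_
    · intro f hf
      rw [Finset.mem_coe, Finset.mem_filter] at hf
      rw [Finset.mem_coe, mem_Mp]
      intro a b hab
      have h4 : (f a).val ≤ (f b).val := mem_Mp.1 hf.1 a b hab
      rw [Fin.le_def]
      exact min_le_min_right _ h4
    · intro f hf f' hf' hff
      rw [Finset.mem_coe, Finset.mem_filter] at hf hf'
      funext i
      have h4 : min (f i).val m = min (f' i).val m :=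
        congrArg (fun g : Fin n → Fin (m + 1) => (g i).val) hff
      have h5 := hf.2 i
      have h6 := hf'.2 i
      rw [min_eq_left h5, min_eq_left h6] at h4
      exact Fin.ext h4
  have h4 : B.card ≤ (Mp Q (m + 1)).card := by
    refine Finset.card_le_card_of_injOn
      (fun f i => ⟨(f i).val - 1, by have := (f i).isLt; omega⟩) ?_ ?_
    · intro f hf
      rw [Finset.mem_coe, Finset.mem_filter] at hf
      rw [Finset.mem_coe, mem_Mp]
      intro a b hab
      have h4 : (f a).val ≤ (f b).val := mem_Mp.1 hf.1 a b hab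
      rw [Fin.le_def]
      exact Nat.sub_le_sub_right h4 1
    · intro f hf f' hf' hff
      rw [Finset.mem_coe, Finset.mem_filter] at hf hf'
      funext i
      have h4 : (f i).val - 1 = (f' i).val - 1 :=
        congrArg (fun g : Fin n → Fin (m + 1) => (g i).val) hff
      have h5 := hf.2 i
      have h6 := hf'.2 i
      exact Fin.ext (by omega)
  have h5 : (Mp Q m).card ≤ T.card := by
    refine Finset.card_le_card_of_injOn
      (fun f i => ⟨(f i).val + 1, by have := (f i).isLt; omega⟩) ?_ ?_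
    · intro f hf
      rw [Finset.mem_coe, mem_Mp] at hf
      rw [Finset.mem_coe, Finset.mem_filter]
      refine ⟨mem_Mp.2 fun a b hab => ?_, fun i => ⟨?_, ?_⟩⟩
      · have h4 : (f a).val ≤ (f b).val := hf a b hab
        rw [Fin.le_def]
        exact Nat.add_le_add_right h4 1
      · exact Nat.le_add_left 1 _
      · exact (f i).isLt
    · intro f _ f' _ hff
      funext i
      have h4 : (f i).val + 1 = (f' i).val + 1 :=
        congrArg (fun g : Fin n → Fin (m + 2) => (g i).val) hff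
      exact Fin.ext (by omega)
  calc (Mp Q (m + 2)).card * (Mp Q m).card ≤ S.card * T.card := Nat.mul_le_mul_left _ h5
    _ ≤ (S ⊼ T).card * (S ⊻ T).card := hAD
    _ ≤ A.card * B.card := Nat.mul_le_mul (Finset.card_le_card h1) (Finset.card_le_card h2)
    _ ≤ _ := Nat.mul_le_mul h3 h4

theorem mp_pos {n : ℕ} (Q : Rel n) (m : ℕ) : 0 < (Mp Q (m + 1)).card := by
  refine Finset.card_pos.2 ⟨fun _ => 0, mem_Mp.2 fun _ _ _ => le_rfl⟩

/-- the ratios decrease -/
theorem mp_ratio {n : ℕ} (Q : Rel n) {i j : ℕ} (hij : j ≤ i) :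
    (Mp Q (i + 2)).card * (Mp Q (j + 1)).card ≤ (Mp Q (j + 2)).card * (Mp Q (i + 1)).card := by
  induction i, hij using Nat.le_induction with
  | base => exact le_rfl
  | succ i hi ih =>
    have h1 := mp_logc Q (i + 1)
    have h2 := mp_pos Q i
    have h3 : ((Mp Q (i + 3)).card * (Mp Q (j + 1)).card) * (Mp Q (i + 1)).card ≤
        ((Mp Q (j + 2)).card * (Mp Q (i + 2)).card) * (Mp Q (i + 1)).card := by
      calc ((Mp Q (i + 3)).card * (Mp Q (j + 1)).card) * (Mp Q (i + 1)).card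
          = ((Mp Q (i + 3)).card * (Mp Q (i + 1)).card) * (Mp Q (j + 1)).card := by ring
        _ ≤ ((Mp Q (i + 2)).card * (Mp Q (i + 2)).card) * (Mp Q (j + 1)).card :=
            Nat.mul_le_mul_right _ h1
        _ = (Mp Q (i + 2)).card * ((Mp Q (i + 2)).card * (Mp Q (j + 1)).card) := by ring
        _ ≤ (Mp Q (i + 2)).card * ((Mp Q (j + 2)).card * (Mp Q (i + 1)).card) :=
            Nat.mul_le_mul_left _ ih
        _ = ((Mp Q (j + 2)).card * (Mp Q (i + 2)).card) * (Mp Q (i + 1)).card := by ring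
    exact Nat.le_of_mul_le_mul_right h3 h2

theorem mp_ratio_pow {n : ℕ} (Q : Rel n) {M j : ℕ} (hj : j ≤ M) (t : ℕ) :
    (Mp Q (M + t + 1)).card * (Mp Q (j + 1)).card ^ t ≤
      (Mp Q (j + 2)).card ^ t * (Mp Q (M + 1)).card := by
  induction t with
  | zero => simp
  | succ t ih =>
    have h1 := mp_ratio Q (i := M + t) (j := j) (by omega)
    calc (Mp Q (M + (t + 1) + 1)).card * (Mp Q (j + 1)).card ^ (t + 1)
        = ((Mp Q (M + t + 2)).card * (Mp Q (j + 1)).card) * (Mp Q (j + 1)).card ^ t := by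
          rw [pow_succ, show M + (t + 1) + 1 = M + t + 2 by ring]; ring
      _ ≤ ((Mp Q (j + 2)).card * (Mp Q (M + t + 1)).card) * (Mp Q (j + 1)).card ^ t :=
          Nat.mul_le_mul_right _ h1
      _ = (Mp Q (j + 2)).card * ((Mp Q (M + t + 1)).card * (Mp Q (j + 1)).card ^ t) := by ring
      _ ≤ (Mp Q (j + 2)).card * ((Mp Q (j + 2)).card ^ t * (Mp Q (M + 1)).card) :=
          Nat.mul_le_mul_left _ ih
      _ = (Mp Q (j + 2)).card ^ (t + 1) * (Mp Q (M + 1)).card := by rw [pow_succ]; ring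

theorem w_le_mp {N : ℕ} {Q : Rel (N + 1)} {lab : Fin (N + 1) → ℕ} (hn : Nat' Q lab) (j : ℕ) :
    w Q lab j ≤ (Mp Q (j + 1)).card := by
  classical
  rw [om_card hn]
  unfold w
  rw [Finset.card_filter]
  refine Finset.sum_le_sum fun g _ => ?_
  split_ifs with h
  · rw [h, show j + 1 + N - j = N + 1 by omega, Nat.choose_self]
  · exact Nat.zero_le _

theorem choose_step (t n : ℕ) : (t + 1 + n).choose n ≤ (n + 1) * (t + n).choose n := by
  have h1 : (t + 1 + n).choose n * (t + 1) = (t + 1 + n) * (t + n).choose n := by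
    have h2 := Nat.add_one_mul_choose_eq (t + n) t
    have e1 : (t + n).choose t = (t + n).choose n := Nat.choose_symm_add
    have e3 : t + n + 1 = t + 1 + n := by omega
    have e2 : (t + 1 + n).choose (t + 1) = (t + 1 + n).choose n := Nat.choose_symm_add
    rw [e1, e3, e2] at h2
    exact h2.symm
  have h3 : (t + 1 + n) ≤ (n + 1) * (t + 1) := by nlinarith
  have h4 : (t + 1 + n).choose n * (t + 1) ≤ ((n + 1) * (t + n).choose n) * (t + 1) := by
    rw [h1]
    calc (t + 1 + n) * (t + n).choose n ≤ ((n + 1) * (t + 1)) * (t + n).choose n :=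
          Nat.mul_le_mul_right _ h3
      _ = _ := by ring
  exact Nat.le_of_mul_le_mul_right h4 (Nat.succ_pos t)

theorem mp_le_w {N : ℕ} {Q : Rel (N + 1)} {lab : Fin (N + 1) → ℕ} (hn : Nat' Q lab) (j : ℕ) :
    (Mp Q (j + 2)).card ≤ w Q lab (j + 1) + (N + 2) * (Mp Q (j + 1)).card := by
  classical
  rw [om_card hn, om_card hn]
  unfold w
  rw [Finset.card_filter, Finset.mul_sum, ← Finset.sum_add_distrib]
  refine Finset.sum_le_sum fun g _ => ?_
  rcases Nat.lt_trichotomy (des lab g) (j + 1) with h | h | h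
  · obtain ⟨t, ht⟩ : ∃ t, j = des lab g + t := ⟨j - des lab g, by omega⟩
    have e1 : j + 2 + N - des lab g = t + 1 + (N + 1) := by omega
    have e2 : j + 1 + N - des lab g = t + (N + 1) := by omega
    rw [e1, e2]
    exact (choose_step t (N + 1)).trans (Nat.le_add_left _ _)
  · rw [if_pos h, h, show j + 2 + N - (j + 1) = N + 1 by omega, Nat.choose_self]
    exact Nat.le_add_right _ _
  · rw [Nat.choose_eq_zero_of_lt (by omega : j + 2 + N - des lab g < N + 1)]
    exact Nat.zero_le _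

/-- `f ↦ f + κ` -/
theorem mp_le_ms2 {n h : ℕ} {Q : Rel n} {κ : Fin n → ℕ} (hκ : Lev h Q κ) (m : ℕ) :
    (Mp Q (m + 1)).card ≤ (Ms Q (m + h)).card := by
  classical
  refine Finset.card_le_card_of_injOn
    (fun f i => ⟨(f i).val + κ i, by have h1 := (f i).isLt; have h2 := hκ.lt i; omega⟩) ?_ ?_
  · intro f hf
    rw [Finset.mem_coe, mem_Mp] at hf
    rw [Finset.mem_coe, mem_Ms]
    intro a b hab
    exact Nat.add_lt_add_of_le_of_lt (hf a b hab) (hκ.mono a b hab)
  · intro f _ f' _ hff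
    funext i
    have h1 : (f i).val + κ i = (f' i).val + κ i :=
      congrArg (fun f : Fin n → Fin (m + h) => (f i).val) hff
    exact Fin.ext (by omega)

open Filter Topology in
/-- UPPER BOUND, sharper by one. -/
theorem om_upper2 {N h : ℕ} {Q : Rel (N + 1)} {κ lab : Fin (N + 1) → ℕ} (hκ : Lev h Q κ)
    (hn : Nat' Q lab) (m : ℕ) :
    (N + 1).factorial * (Mp Q (m + 1)).card ≤ (LE Q).card * (m + h) ^ (N + 1) := by
  have key : ∀ k : ℕ, (N + 1).factorial * (Mp Q (m + 1)).card * k ^ (N + 1) ≤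
      (LE Q).card * (k * (m + h) + N) ^ (N + 1) := by
    intro k
    have h1 : (N + 1).factorial * Nat.choose (k * (m + h) + N) (N + 1) ≤
        (k * (m + h) + N) ^ (N + 1) := by
      rw [← Nat.descFactorial_eq_factorial_mul_choose]
      exact Nat.descFactorial_le_pow _ _
    calc (N + 1).factorial * (Mp Q (m + 1)).card * k ^ (N + 1)
        = (N + 1).factorial * (k ^ (N + 1) * (Mp Q (m + 1)).card) := by ring
      _ ≤ (N + 1).factorial * (k ^ (N + 1) * (Ms Q (m + h)).card) :=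
          Nat.mul_le_mul_left _ (Nat.mul_le_mul_left _ (mp_le_ms2 hκ m))
      _ ≤ (N + 1).factorial * (Mp Q (k * (m + h))).card :=
          Nat.mul_le_mul_left _ (ms_mul Q k (m + h))
      _ ≤ (N + 1).factorial * ((LE Q).card * Nat.choose (k * (m + h) + N) (N + 1)) :=
          Nat.mul_le_mul_left _ (om_le hn _)
      _ = (LE Q).card * ((N + 1).factorial * Nat.choose (k * (m + h) + N) (N + 1)) := by ring
      _ ≤ (LE Q).card * (k * (m + h) + N) ^ (N + 1) := Nat.mul_le_mul_left _ h1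
  have hlim : Tendsto
      (fun k : ℕ => ((LE Q).card : ℝ) * (((m : ℝ) + (h : ℝ)) + (N : ℝ) / (k : ℝ)) ^ (N + 1))
      atTop (𝓝 (((LE Q).card : ℝ) * (((m : ℝ) + (h : ℝ)) + 0) ^ (N + 1))) :=
    ((tendsto_const_nhds.add (tendsto_const_div_atTop_nhds_zero_nat (N : ℝ))).pow _).const_mul _
  rw [add_zero] at hlim
  have hev : ∀ᶠ k : ℕ in atTop, ((N + 1).factorial : ℝ) * ((Mp Q (m + 1)).card : ℝ) ≤
      ((LE Q).card : ℝ) * (((m : ℝ) + (h : ℝ)) + (N : ℝ) / (k : ℝ)) ^ (N + 1) := by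
    filter_upwards [eventually_ge_atTop 1] with k hk
    have hk0 : (0 : ℝ) < (k : ℝ) := by exact_mod_cast hk
    have h1 : (((N + 1).factorial * (Mp Q (m + 1)).card * k ^ (N + 1) : ℕ) : ℝ) ≤
        (((LE Q).card * (k * (m + h) + N) ^ (N + 1) : ℕ) : ℝ) := by
      exact_mod_cast key k
    push_cast at h1
    have h2 : (k : ℝ) * ((m : ℝ) + (h : ℝ)) + (N : ℝ) =
        (((m : ℝ) + (h : ℝ)) + (N : ℝ) / (k : ℝ)) * (k : ℝ) := by
      field_simp
    rw [h2, mul_pow, ← mul_assoc] at h1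
    exact le_of_mul_le_mul_right h1 (pow_pos hk0 _)
  have hfin := ge_of_tendsto hlim hev
  exact_mod_cast hfin

/-- SMALL `j`, arithmetic form. -/
theorem small2_nat {N h : ℕ} {Q : Rel (N + 1)} {κ lab : Fin (N + 1) → ℕ} (hκ : Lev h Q κ)
    (hn : Nat' Q lab) {M j : ℕ} (hM : (N + 3) ^ M * 3 ^ (N + 1) ≤ 4 ^ (N + 1)) (hM1 : 1 ≤ M)
    (hh : 2 * h ≤ M) (hj : j ≤ M) : w Q lab j ≤ w Q lab (j + 1) := by
  have hh1 : 1 ≤ h := by
    have := hκ.lt 0
    omega
  have h1 : (LE Q).card * (2 * M + 1) ^ (N + 1) ≤ (N + 1).factorial * (Mp Q (2 * M + 1)).card :=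
    om_lower hn (2 * M + 1)
  have h2 : (N + 1).factorial * (Mp Q (M + 1)).card ≤ (LE Q).card * (M + h) ^ (N + 1) := by
    exact om_upper2 hκ hn M
  have h3 : 4 ^ (N + 1) * (Mp Q (M + 1)).card ≤ 3 ^ (N + 1) * (Mp Q (2 * M + 1)).card := by
    have h4 : (N + 1).factorial * (4 ^ (N + 1) * (Mp Q (M + 1)).card) ≤
        (N + 1).factorial * (3 ^ (N + 1) * (Mp Q (2 * M + 1)).card) := by
      calc (N + 1).factorial * (4 ^ (N + 1) * (Mp Q (M + 1)).card)
          = 4 ^ (N + 1) * ((N + 1).factorial * (Mp Q (M + 1)).card) := by ring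
        _ ≤ 4 ^ (N + 1) * ((LE Q).card * (M + h) ^ (N + 1)) := Nat.mul_le_mul_left _ h2
        _ = (LE Q).card * (4 * (M + h)) ^ (N + 1) := by rw [mul_pow]; ring
        _ ≤ (LE Q).card * (3 * (2 * M + 1)) ^ (N + 1) :=
            Nat.mul_le_mul_left _ (Nat.pow_le_pow_left (by omega) _)
        _ = 3 ^ (N + 1) * ((LE Q).card * (2 * M + 1) ^ (N + 1)) := by rw [mul_pow]; ring
        _ ≤ 3 ^ (N + 1) * ((N + 1).factorial * (Mp Q (2 * M + 1)).card) :=
            Nat.mul_le_mul_left _ h1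
        _ = _ := by ring
    exact Nat.le_of_mul_le_mul_left h4 (Nat.factorial_pos _)
  have h4 := mp_ratio_pow Q hj M
  rw [show M + M + 1 = 2 * M + 1 by ring] at h4
  have hMp := mp_pos Q M
  have h5 : 4 ^ (N + 1) * (Mp Q (j + 1)).card ^ M ≤ 3 ^ (N + 1) * (Mp Q (j + 2)).card ^ M := by
    have h6 : (4 ^ (N + 1) * (Mp Q (j + 1)).card ^ M) * (Mp Q (M + 1)).card ≤
        (3 ^ (N + 1) * (Mp Q (j + 2)).card ^ M) * (Mp Q (M + 1)).card := by
      calc (4 ^ (N + 1) * (Mp Q (j + 1)).card ^ M) * (Mp Q (M + 1)).card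
          = (4 ^ (N + 1) * (Mp Q (M + 1)).card) * (Mp Q (j + 1)).card ^ M := by ring
        _ ≤ (3 ^ (N + 1) * (Mp Q (2 * M + 1)).card) * (Mp Q (j + 1)).card ^ M :=
            Nat.mul_le_mul_right _ h3
        _ = 3 ^ (N + 1) * ((Mp Q (2 * M + 1)).card * (Mp Q (j + 1)).card ^ M) := by ring
        _ ≤ 3 ^ (N + 1) * ((Mp Q (j + 2)).card ^ M * (Mp Q (M + 1)).card) :=
            Nat.mul_le_mul_left _ h4
        _ = _ := by ring
    exact Nat.le_of_mul_le_mul_right h6 hMp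
  have h7 : ((N + 3) * (Mp Q (j + 1)).card) ^ M ≤ (Mp Q (j + 2)).card ^ M := by
    have h8 : 3 ^ (N + 1) * ((N + 3) * (Mp Q (j + 1)).card) ^ M ≤
        3 ^ (N + 1) * (Mp Q (j + 2)).card ^ M := by
      calc 3 ^ (N + 1) * ((N + 3) * (Mp Q (j + 1)).card) ^ M
          = ((N + 3) ^ M * 3 ^ (N + 1)) * (Mp Q (j + 1)).card ^ M := by rw [mul_pow]; ring
        _ ≤ 4 ^ (N + 1) * (Mp Q (j + 1)).card ^ M := Nat.mul_le_mul_right _ hM
        _ ≤ _ := h5
    exact Nat.le_of_mul_le_mul_left h8 (by positivity)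
  have h8 : (N + 3) * (Mp Q (j + 1)).card ≤ (Mp Q (j + 2)).card :=
    (Nat.pow_le_pow_iff_left (by omega)).1 h7
  have h9 := mp_le_w hn j
  have h10 := w_le_mp hn j
  have h11 : (N + 3) * (Mp Q (j + 1)).card = (N + 2) * (Mp Q (j + 1)).card + (Mp Q (j + 1)).card := by
    ring
  omega

/-- SMALL `j`: `n = N + 1`, all `j ≤ n / (4 log (n + 2))`, `h ≤ n / (8 log (n + 2))`. -/
theorem small2 {N h : ℕ} {Q : Rel (N + 1)} {κ lab : Fin (N + 1) → ℕ} (hκ : Lev h Q κ)
    (hn : Nat' Q lab) {j : ℕ} (hh : 8 * (h : ℝ) * Real.log (N + 3) ≤ N + 1)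
    (hj : 4 * (j : ℝ) * Real.log (N + 3) ≤ N + 1) : w Q lab j ≤ w Q lab (j + 1) := by
  have hh1 : 1 ≤ h := by
    have := hκ.lt 0
    omega
  refine small2_nat hκ hn (M := max (2 * h) j) ?_ (by omega) (le_max_left _ _) (le_max_right _ _)
  have hN : (0 : ℝ) < (N : ℝ) + 3 := by positivity
  have h1 : 4 * ((max (2 * h) j : ℕ) : ℝ) * Real.log (N + 3) ≤ N + 1 := by
    rcases le_total (2 * h) j with h2 | h2
    · rw [max_eq_right h2]
      exact hj
    · rw [max_eq_left h2]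
      push_cast
      linarith
  have h2 : ((N : ℝ) + 3) ^ (max (2 * h) j) ≤ Real.exp ((N + 1) / 4) := by
    rw [← Real.log_le_iff_le_exp (by positivity), Real.log_pow]
    linarith
  have h3 : Real.exp (1 / 4) ≤ 4 / 3 := by
    have h4 : Real.exp (1 / 4) ^ 4 ≤ (4 / 3) ^ 4 := by
      rw [← Real.exp_nat_mul]
      have h5 : ((4 : ℕ) : ℝ) * (1 / 4) = 1 := by norm_num
      rw [h5]
      have := Real.exp_one_lt_d9
      norm_num
      linarith
    exact le_of_pow_le_pow_left₀ (by norm_num) (by norm_num) h4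
  have h4 : Real.exp ((N + 1) / 4) ≤ (4 / 3) ^ (N + 1) := by
    have h5 : Real.exp (((N : ℝ) + 1) / 4) = Real.exp (1 / 4) ^ (N + 1) := by
      rw [← Real.exp_nat_mul]
      congr 1
      push_cast
      ring
    rw [h5]
    exact pow_le_pow_left₀ (Real.exp_pos _).le h3 _
  have h5 : ((N : ℝ) + 3) ^ (max (2 * h) j) * 3 ^ (N + 1) ≤ 4 ^ (N + 1) := by
    have h6 := mul_le_mul_of_nonneg_right (h2.trans h4) (by positivity : (0 : ℝ) ≤ 3 ^ (N + 1))
    rw [← mul_pow] at h6
    norm_num at h6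
    exact h6
  exact_mod_cast h5

end Pool.SC25
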